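import Mathlib

/-! A lower bound for the Hausdorff dimension of the limit set of a Cantor scheme. -/

namespace Pool.Agent.P.MP_613544_nt.E

open Set
open scoped NNReal ENNReal

/-- A family of points indexed by digit sequences and separated at a geometric rate. -/
theorem dim_of_sep {M : ℕ} (hM : 1 < M) {lam c : ℝ} {d : ℝ≥0} (hd : 0 < d) (l0 : 0 < lam)
    (c0 : 0 < c) (hl : ((M : ℝ))⁻¹ ≤ lam ^ (d : ℝ)) (x : (ℕ → Fin M) → ℝ)
    (sep : ∀ σ σ' i, (∀ k < i, σ k = σ' k) → σ i ≠ σ' i → c * lam ^ i ≤ |x σ - x σ'|) :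
    (d : ℝ≥0∞) ≤ dimH (range x) := by
  classical
  have inj : Function.Injective x := fun σ σ' h => by
    by_contra n
    have ex := Function.ne_iff.1 n
    have := sep σ σ' _ (fun k hk => not_not.1 (Nat.find_min ex hk)) (Nat.find_spec ex)
    rw [h, sub_self, abs_zero] at this
    exact absurd this (not_le.2 (by positivity))
  have : Nonempty (ℕ → Fin M) := ⟨fun _ => ⟨0, by omega⟩⟩
  have hol : HolderOnWith (c ^ (-(d : ℝ))).toNNReal d
      (fun y => Real.ofDigits (Function.invFun x y)) (range x) := by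
    rintro _ ⟨σ, rfl⟩ _ ⟨σ', rfl⟩
    simp only [Function.leftInverse_invFun inj _]
    by_cases n : σ = σ'
    · simp [n]
    have ex := Function.ne_iff.1 n
    have h1 : ∀ k < Nat.find ex, σ k = σ' k := fun k hk => not_not.1 (Nat.find_min ex hk)
    have h2 := sep σ σ' _ h1 (Nat.find_spec ex)
    have h3 := Real.abs_ofDigits_sub_ofDigits_le h1
    generalize Nat.find ex = i at h2 h3
    rw [edist_dist, edist_dist, ENNReal.ofReal_rpow_of_nonneg dist_nonneg d.coe_nonneg, Real.dist_eq,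
      Real.dist_eq]
    change _ ≤ ENNReal.ofReal _ * _
    rw [← ENNReal.ofReal_mul (by positivity)]
    refine ENNReal.ofReal_le_ofReal (h3.trans ?_)
    have h4 := Real.rpow_le_rpow (by positivity) h2 d.coe_nonneg
    rw [Real.mul_rpow c0.le (by positivity), ← Real.rpow_natCast, ← Real.rpow_mul l0.le,
      mul_comm (i : ℝ), Real.rpow_mul l0.le, Real.rpow_natCast] at h4
    rw [Real.rpow_neg c0.le, ← div_eq_inv_mul, le_div_iff₀' (by positivity), ← inv_pow]
    refine le_trans ?_ h4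
    gcongr
  have h1 := hol.dimH_image_le hd
  have h2 : Icc (0 : ℝ) 1 ⊆ (fun y => Real.ofDigits (Function.invFun x y)) '' range x :=
    fun y hy => by
      obtain ⟨σ, -, rfl⟩ := Real.ofDigits_SurjOn hM hy
      exact ⟨x σ, ⟨σ, rfl⟩, by simp only [Function.leftInverse_invFun inj _]⟩
  have h3 : dimH (Icc (0 : ℝ) 1) = 1 := by
    rw [Real.dimH_of_nonempty_interior (by simp)]
    simp
  have h4 := (h3 ▸ dimH_mono h2).trans h1
  rwa [ENNReal.le_div_iff_mul_le (Or.inl (by simpa using hd.ne')) (Or.inl ENNReal.coe_ne_top),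
    one_mul] at h4

/-- The Cantor scheme. -/
theorem cantor {M : ℕ} (hM : 1 < M) {lam c : ℝ} {d : ℝ≥0} (hd : 0 < d) (l0 : 0 < lam)
    (c0 : 0 < c) (hl : ((M : ℝ))⁻¹ ≤ lam ^ (d : ℝ)) {S : Type} (a b : S → ℝ) (P : ℕ → S → Prop)
    (R : ℕ → S → S → Prop) (s0 : S) (h0 : P 0 s0) (hab : ∀ i s, P i s → a s ≤ b s)
    (step : ∀ i s, P i s → ∃ f : Fin M → S,
      (∀ j, P (i + 1) (f j) ∧ R i s (f j) ∧ a s ≤ a (f j) ∧ b (f j) ≤ b s) ∧
      ∀ j j', j ≠ j' → ∀ x ∈ Icc (a (f j)) (b (f j)), ∀ y ∈ Icc (a (f j')) (b (f j')),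
        c * lam ^ i ≤ |x - y|) :
    (d : ℝ≥0∞) ≤ dimH {x | ∃ s : ℕ → S, ∀ i, P i (s i) ∧ R i (s i) (s (i + 1)) ∧
      x ∈ Icc (a (s i)) (b (s i))} := by
  choose F hF sep using step
  let path (σ : ℕ → Fin M) : (i : ℕ) → {s // P i s} := fun i =>
    Nat.rec (motive := fun i => {s // P i s}) ⟨s0, h0⟩
      (fun i s => ⟨F i s.1 s.2 (σ i), (hF i s.1 s.2 (σ i)).1⟩) i
  have ps : ∀ σ i, (path σ (i + 1)).1 = F i (path σ i).1 (path σ i).2 (σ i) := fun _ _ => rfl
  have eq : ∀ σ σ' i, (∀ k < i, σ k = σ' k) → path σ i = path σ' i := fun σ σ' i h => by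
    induction i with
    | zero => rfl
    | succ i ih =>
      refine Subtype.ext ?_
      rw [ps, ps, h i i.lt_succ_self]
      have := ih fun k hk => h k (hk.trans i.lt_succ_self)
      rw [this]
  have mem : ∀ σ, (⨆ i, a (path σ i).1) ∈ ⋂ i, Icc (a (path σ i).1) (b (path σ i).1) := fun σ =>
    Monotone.ciSup_mem_iInter_Icc_of_antitone
      (monotone_nat_of_le_succ fun i => (hF i _ (path σ i).2 (σ i)).2.2.1)
      (antitone_nat_of_succ_le fun i => (hF i _ (path σ i).2 (σ i)).2.2.2)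
      fun i => hab i _ (path σ i).2
  refine (dim_of_sep hM hd l0 c0 hl (fun σ => ⨆ i, a (path σ i).1) fun σ σ' i h n => ?_).trans
    (dimH_mono ?_)
  · have h1 := mem_iInter.1 (mem σ) (i + 1)
    have h2 := mem_iInter.1 (mem σ') (i + 1)
    rw [ps] at h1 h2
    have e := eq σ σ' i h
    generalize path σ i = s at *
    subst e
    exact sep i _ _ _ _ n _ h1 _ h2
  · rintro _ ⟨σ, rfl⟩
    exact ⟨fun i => (path σ i).1, fun i => ⟨(path σ i).2, (hF i _ (path σ i).2 (σ i)).2.1,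
      mem_iInter.1 (mem σ) i⟩⟩

end Pool.Agent.P.MP_613544_nt.E
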