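import Mathlib

/-! Avoiding the roots of the forms of discriminant minus three improves the Euclidean theorem. -/

namespace Pool.Agent.P.MP_613544_nt.E

open Complex

theorem reduced (x y : ℝ) (hy : 0 < y) : ∃ a b c d : ℤ, a * d - b * c = 1 ∧
    (c * x + d) ^ 2 + (c * y) ^ 2 ≤ (a * x + b) ^ 2 + (a * y) ^ 2 ∧
    2 * |(a * x + b) * (c * x + d) + a * y * (c * y)| ≤ (c * x + d) ^ 2 + (c * y) ^ 2 := by
  obtain ⟨g, h1, h2⟩ := ModularGroup.exists_smul_mem_fd ⟨⟨x, y⟩, hy⟩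
  have det : g 0 0 * g 1 1 - g 0 1 * g 1 0 = 1 := by
    have := g.det_coe
    rwa [Matrix.det_fin_two] at this
  rw [← UpperHalfPlane.coe_re] at h2
  rw [UpperHalfPlane.coe_specialLinearGroup_apply] at h1 h2
  simp only [eq_intCast] at h1 h2
  refine ⟨g 0 0, g 0 1, g 1 0, g 1 1, det, ?_⟩
  generalize g 0 0 = a, g 0 1 = b, g 1 0 = c, g 1 1 = d at *
  have p : 0 < (c * x + d) ^ 2 + (c * y) ^ 2 := by
    by_cases h : c = 0
    · have : (d : ℝ) ≠ 0 := by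
        have : d ≠ 0 := by rintro rfl; simp [h] at det
        exact_mod_cast this
      simp only [h, Int.cast_zero, zero_mul, zero_add]
      positivity
    · have : (c : ℝ) ≠ 0 := by exact_mod_cast h
      positivity
  rw [normSq_div] at h1
  rw [div_re, ← add_div, abs_div] at h2
  simp only [normSq_apply, add_re, mul_re, ofReal_re, ofReal_im, add_im, mul_im, zero_mul, sub_zero,
    add_zero, ← sq] at h1 h2
  rw [abs_of_pos p, div_le_iff₀ p] at h2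
  rw [one_le_div p] at h1
  exact ⟨h1, by linarith⟩

theorem ineq {U V β G δ : ℝ} (d1 : δ ^ 2 ≤ 1) (u0 : 0 < U) (h1 : U ≤ V) (b0 : 0 ≤ β)
    (h2 : 2 * β ≤ U) (h3 : U * V = 1 + β ^ 2) (hG : G = U + V - β) (h4 : 3 + δ ^ 2 ≤ G ^ 2) :
    U ^ 2 ≤ 4 / 3 - δ ^ 2 / 13 := by
  by_cases h : U ≤ 1
  · nlinarith
  obtain ⟨e, he⟩ : ∃ e, e = 4 / 3 - U ^ 2 := ⟨_, rfl⟩
  have a0 : 0 ≤ e := by nlinarith
  have a1 : V - U ≤ 3 * e / 4 := by nlinarith
  have a2 : U / 2 - β ≤ 3 * e / 2 := by nlinarith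
  have a3 : G ≤ 3 * U / 2 + 9 * e / 4 := by linarith
  have a4 : G ^ 2 ≤ (3 * U / 2 + 9 * e / 4) ^ 2 := by
    have : 0 ≤ G := by linarith
    gcongr
  have a5 : U ≤ 7 / 6 := by nlinarith
  have a6 : e ≤ 1 := by nlinarith
  nlinarith

theorem crit {x δ : ℝ} (d0 : 0 < δ) (d1 : δ ≤ 1)
    (h : ∀ A B C : ℤ, 0 < A → B ^ 2 + 3 = 4 * A * C → δ ≤ |2 * A * x + B|) :
    ∃ c : ℝ, 0 < c ∧ c < 1 ∧ ∀ t : ℝ, 0 < t → ∃ p q : ℤ, (p, q) ≠ (0, 0) ∧
      (t * (p + q * x) / c) ^ 2 + (q / t) ^ 2 ≤ 2 / √3 := by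
  have d2 : δ ^ 2 ≤ 1 := by nlinarith
  have d3 : 0 < δ ^ 2 := by positivity
  refine ⟨1 - δ ^ 2 / 100, by linarith, by linarith, fun t ht => ?_⟩
  obtain ⟨y, hy, e⟩ : ∃ y : ℝ, 0 < y ∧ y * t ^ 2 = 1 := ⟨1 / t ^ 2, by positivity, by field_simp⟩
  obtain ⟨a, b, c, d, det, h1, h2⟩ := reduced x y hy
  refine ⟨d, c, fun z => by simp only [Prod.mk.injEq] at z; simp [z.1, z.2] at det, ?_⟩
  have detR : (a : ℝ) * d - b * c = 1 := by exact_mod_cast det
  obtain ⟨ε, e1, e2⟩ : ∃ ε : ℤ, ε ^ 2 = 1 ∧ |(a * x + b) * (c * x + d) + a * y * (c * y)| =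
      ε * ((a * x + b) * (c * x + d) + a * y * (c * y)) := by
    rcases abs_choice ((a * x + b) * (c * x + d) + a * y * (c * y)) with z | z
    exacts [⟨1, by simp, by simp [z]⟩, ⟨-1, by simp, by simp [z]⟩]
  obtain ⟨A, hA⟩ : ∃ A, A = a ^ 2 - ε * a * c + c ^ 2 := ⟨_, rfl⟩
  obtain ⟨B, hB⟩ : ∃ B, B = 2 * a * b - ε * (a * d + b * c) + 2 * c * d := ⟨_, rfl⟩
  obtain ⟨C, hC⟩ : ∃ C, C = b ^ 2 - ε * b * d + d ^ 2 := ⟨_, rfl⟩
  have disc : B ^ 2 + 3 = 4 * A * C := by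
    rw [hA, hB, hC]
    linear_combination (a * d - b * c) ^ 2 * e1 - 3 * (a * d - b * c + 1) * det
  have A0 : 0 < A := by
    have : 0 ≤ A := by rw [hA]; nlinarith [sq_nonneg (2 * a - ε * c), sq_nonneg c]
    refine this.lt_of_ne fun z => ?_
    rw [← z] at disc
    nlinarith [sq_nonneg B]
  have k := h A B C A0 disc
  have k2 : δ ^ 2 ≤ (2 * A * x + B) ^ 2 := by rw [← sq_abs (2 * A * x + B)]; gcongr
  have AR : (0 : ℝ) < A := by exact_mod_cast A0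
  have discR : (B : ℝ) ^ 2 + 3 = 4 * A * C := by exact_mod_cast disc
  have eR : (ε : ℝ) ^ 2 = 1 := by exact_mod_cast e1
  obtain ⟨G, hG⟩ : ∃ G, G = (A * (x ^ 2 + y ^ 2) + B * x + C) / y := ⟨_, rfl⟩
  have g1 : 2 * (2 * A * y) * G = (2 * A * x + B) ^ 2 + (2 * A * y) ^ 2 + 3 := by
    rw [hG]; field_simp; linear_combination -discR
  have g2 : 3 + δ ^ 2 ≤ G ^ 2 := by
    have s0 : 0 < 2 * A * y := by positivity
    generalize 2 * A * y = s at g1 s0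
    nlinarith [sq_nonneg (G - s)]
  have u0 : 0 < (c * x + d) ^ 2 + (c * y) ^ 2 := by
    refine lt_of_le_of_ne (by positivity) fun z => ?_
    have z1 : c * y = 0 := by nlinarith [sq_nonneg (c * x + d), sq_nonneg (c * y)]
    have z2 : c * x + d = 0 := by nlinarith [sq_nonneg (c * x + d), sq_nonneg (c * y)]
    have z3 : (c : ℝ) = 0 := (mul_eq_zero.1 z1).resolve_right hy.ne'
    rw [z3] at z2 detR
    simp at z2
    simp [z2] at detR
  have key := ineq (U := ((c * x + d) ^ 2 + (c * y) ^ 2) / y)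
    (V := ((a * x + b) ^ 2 + (a * y) ^ 2) / y)
    (β := |(a * x + b) * (c * x + d) + a * y * (c * y)| / y) d2 (by positivity) (by gcongr)
    (by positivity) (by rw [← mul_div_assoc]; gcongr) (by
      rw [div_pow, sq_abs]; field_simp
      linear_combination (y ^ 2 * (a * d - b * c + 1)) * detR) (by
      rw [hG, e2, hA, hB, hC]; push_cast; ring) g2
  have u1 : ((c * x + d) ^ 2 + (c * y) ^ 2) / y = (t * (d + c * x)) ^ 2 + (c / t) ^ 2 := by
    have : y = 1 / t ^ 2 := by field_simp; linarith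
    rw [this]; field_simp; ring
  rw [u1] at key
  have c0 : 0 < 1 - δ ^ 2 / 100 := by linarith
  have s3 : (2 / √3 : ℝ) ^ 2 = 4 / 3 := by rw [div_pow, Real.sq_sqrt (by norm_num)]; norm_num
  have k3 : (t * (d + c * x)) ^ 2 + (c / t) ^ 2 ≤ (1 - δ ^ 2 / 100) ^ 2 * (2 / √3) := by
    refine abs_le_of_sq_le_sq' (key.trans ?_) (by positivity) |>.2
    rw [mul_pow, s3]
    nlinarith [sq_nonneg (δ ^ 2), mul_pos d3 d3, mul_pos d3 (mul_pos d3 d3)]
  have k4 : (c / t : ℝ) ^ 2 ≤ (c / t) ^ 2 / (1 - δ ^ 2 / 100) ^ 2 :=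
    le_div_self (by positivity) (by positivity) (by nlinarith)
  rw [div_pow]
  refine (add_le_add_right k4 _).trans ?_
  rw [← add_div, div_le_iff₀' (by positivity)]
  exact k3

end Pool.Agent.P.MP_613544_nt.E
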