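import Mathlib

/-! The covering bound for well approximable numbers. -/

namespace Pool.Agent.P.MP_613544_nt.E

open Set Filter Topology MeasureTheory
open scoped NNReal ENNReal

theorem upper_piece {τ : ℝ} (hτ : 0 < τ) (K : ℕ) :
    dimH {x : ℝ | |x| ≤ K ∧ ∃ᶠ n : ℕ in atTop, ∃ m : ℤ, |x - m / n| < K / (n : ℝ) ^ τ} ≤
      ENNReal.ofReal (2 / τ) := by
  refine dimH_le fun d hd => ?_
  by_contra hlt
  have h2 : 2 / τ < d := by
    rw [not_le, ← ENNReal.ofReal_coe_nnreal] at hlt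
    exact (ENNReal.ofReal_lt_ofReal_iff_of_nonneg (by positivity)).1 hlt
  have h3 : 2 < τ * d := by rwa [div_lt_iff₀' hτ] at h2
  let ρ : ℕ → ℝ := fun n => K / ((n + 1 : ℕ) : ℝ) ^ τ
  let f : ℕ → ℝ := fun n => ((4 * K * (n + 1) + 1 : ℕ) : ℝ) * (2 * ρ n) ^ (d : ℝ)
  have ρ0 : ∀ n, 0 ≤ ρ n := fun n => by positivity
  have sf : Summable f := by
    have := ((summable_nat_add_iff 1).2 (Real.summable_nat_rpow.2
      (show 1 - τ * d < -1 by linarith))).mul_left ((4 * K + 1) * (2 * K : ℝ) ^ (d : ℝ))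
    refine Summable.of_nonneg_of_le (fun n => by have := ρ0 n; positivity) (fun n => ?_) this
    have p : (0 : ℝ) < ((n + 1 : ℕ) : ℝ) := by positivity
    have q : (1 : ℝ) ≤ ((n + 1 : ℕ) : ℝ) := by exact_mod_cast Nat.succ_pos n
    simp only [f, ρ]
    rw [← mul_div_assoc, Real.div_rpow (by positivity) (by positivity), ← Real.rpow_mul p.le,
      Real.rpow_sub p, Real.rpow_one]
    have : ((4 * K * (n + 1) + 1 : ℕ) : ℝ) ≤ (4 * K + 1) * ((n + 1 : ℕ) : ℝ) := by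
      push_cast at *
      linarith
    calc _ ≤ ((4 * K + 1) * ((n + 1 : ℕ) : ℝ)) * ((2 * K) ^ (d : ℝ) / ((n + 1 : ℕ) : ℝ) ^ (τ * d)) := by
          gcongr
      _ = _ := by ring
  have tρ : Tendsto ρ atTop (𝓝 0) :=
    tendsto_const_nhds.div_atTop ((tendsto_rpow_atTop hτ).comp
      (tendsto_natCast_atTop_atTop.comp (tendsto_add_atTop_nat 1)))
  have aρ : Antitone ρ := fun m n h => by simp only [ρ]; gcongr
  let ctr : ℕ → ℕ → ℝ := fun n j => ((j : ℝ) - 2 * K * (n + 1)) / (n + 1)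
  have key := Measure.hausdorffMeasure_le_liminf_tsum
    (ι := fun n0 : ℕ => Σ k : ℕ, Fin (4 * K * (k + n0 + 1) + 1)) (d : ℝ)
    {x : ℝ | |x| ≤ K ∧ ∃ᶠ n : ℕ in atTop, ∃ m : ℤ, |x - m / n| < K / (n : ℝ) ^ τ} (l := atTop)
    (fun n0 => ENNReal.ofReal (2 * ρ n0))
    (by simpa using ENNReal.tendsto_ofReal (tρ.const_mul 2))
    (fun n0 i => Icc (ctr (i.1 + n0) i.2 - ρ (i.1 + n0)) (ctr (i.1 + n0) i.2 + ρ (i.1 + n0)))
    (Eventually.of_forall fun n0 i => by
      rw [Real.ediam_Icc]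
      have := aρ (Nat.le_add_left n0 i.1)
      exact ENNReal.ofReal_le_ofReal (by linarith))
    (Eventually.of_forall fun n0 x ⟨h1, h2⟩ => by
      obtain ⟨n, hn, m, hm⟩ := frequently_atTop.1 h2 (n0 + 1)
      obtain ⟨k, rfl⟩ : ∃ k, n = k + n0 + 1 := ⟨n - (n0 + 1), by omega⟩
      have p : (1 : ℝ) ≤ ((k + n0 + 1 : ℕ) : ℝ) := by exact_mod_cast Nat.succ_pos _
      have a1 : (K : ℝ) / ((k + n0 + 1 : ℕ) : ℝ) ^ τ ≤ K :=
        div_le_self (by positivity) (Real.one_le_rpow p hτ.le)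
      have a2 : |(m : ℝ) / ((k + n0 + 1 : ℕ) : ℝ)| ≤ 2 * K := by
        have := abs_sub_abs_le_abs_sub ((m : ℝ) / ((k + n0 + 1 : ℕ) : ℝ)) x
        rw [abs_sub_comm] at this
        linarith
      rw [abs_div, abs_of_pos (by positivity : (0 : ℝ) < ((k + n0 + 1 : ℕ) : ℝ)),
        div_le_iff₀ (by positivity)] at a2
      have a3 : |m| ≤ 2 * K * (k + n0 + 1 : ℕ) := by exact_mod_cast a2
      obtain ⟨j, hj⟩ := Int.eq_ofNat_of_zero_le (a := m + 2 * K * (k + n0 + 1 : ℕ))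
        (by have := neg_abs_le m; omega)
      have a4 : j < 4 * K * (k + n0 + 1) + 1 := by
        have := le_abs_self m
        zify at *
        linarith
      refine mem_iUnion.2 ⟨⟨k, ⟨j, a4⟩⟩, ?_⟩
      have a5 : ctr (k + n0) j = m / ((k + n0 + 1 : ℕ) : ℝ) := by
        have : (j : ℝ) = m + 2 * K * (k + n0 + 1 : ℕ) := by exact_mod_cast hj.symm
        simp only [ctr, this]
        push_cast
        ring
      simp only [a5, ρ]
      have := abs_lt.1 hm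
      constructor <;> linarith)
  rw [hd, top_le_iff] at key
  refine absurd (key ▸ liminf_le_of_frequently_le' (x := ENNReal.ofReal (∑' n, f n))
    (Frequently.of_forall fun n0 => ?_)) (by simp)
  rw [ENNReal.tsum_sigma', ENNReal.ofReal_tsum_of_nonneg (fun n => by have := ρ0 n; positivity) sf]
  refine le_trans (ENNReal.tsum_le_tsum fun k => ?_) (ENNReal.tsum_comp_le_tsum_of_injective
    (add_left_injective n0) fun n => ENNReal.ofReal (f n))
  have := ρ0 (k + n0)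
  simp only [Real.ediam_Icc, add_sub_sub_cancel, ← two_mul, tsum_fintype, Finset.sum_const,
    Finset.card_univ, Fintype.card_fin, nsmul_eq_mul, f]
  rw [ENNReal.ofReal_rpow_of_nonneg (by positivity) d.coe_nonneg,
    ENNReal.ofReal_mul (by positivity), ENNReal.ofReal_natCast]

theorem upper {τ : ℝ} (hτ : 0 < τ) : dimH {x : ℝ | LiouvilleWith τ x} ≤ ENNReal.ofReal (2 / τ) := by
  refine (dimH_mono (t := ⋃ K : ℕ, {x : ℝ | |x| ≤ K ∧ ∃ᶠ n : ℕ in atTop, ∃ m : ℤ,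
    |x - m / n| < K / (n : ℝ) ^ τ}) fun x hx => ?_).trans
    ((dimH_iUnion _).trans_le (iSup_le (upper_piece hτ)))
  obtain ⟨C, h⟩ := hx
  obtain ⟨K, hK⟩ := exists_nat_ge (max |x| C)
  refine mem_iUnion.2 ⟨K, (le_max_left ..).trans hK, h.mono fun n ⟨m, _, a⟩ => ⟨m, a.trans_le ?_⟩⟩
  have := (le_max_right ..).trans hK
  gcongr

end Pool.Agent.P.MP_613544_nt.E
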